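import Mathlib

/-!
Submodular functions on `B_k = {0,1}^k` (`Fin k → Bool`), expressibility by binary submodular
functions, upper and lower fans, and the cone of fans.
-/

set_option autoImplicit false

namespace Pool.Agent.H74.Fan

variable {k : ℕ}

/-- The coordinatewise meet. -/
def meet (u v : Fin k → Bool) : Fin k → Bool := fun i => u i && v i

/-- The coordinatewise join. -/
def join (u v : Fin k → Bool) : Fin k → Bool := fun i => u i || v i

/-- The coordinatewise order. -/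
def Below (u v : Fin k → Bool) : Prop := ∀ i, u i = true → v i = true

/-- `f` is submodular. -/
def Submodular (f : (Fin k → Bool) → ℝ) : Prop :=
  ∀ u v, f (meet u v) + f (join u v) ≤ f u + f v

/-- The value at `(x, y)` of the sum of the `α i * g i (z i, z' i)`, where `z i` and `z' i` are
variables among `x` and `y`. -/
def value {j m : ℕ} (α : Fin m → ℝ) (g : Fin m → (Fin 2 → Bool) → ℝ)
    (z : Fin m → Fin 2 → Fin k ⊕ Fin j) (x : Fin k → Bool) (y : Fin j → Bool) : ℝ :=
  ∑ i, α i * g i (fun t => Sum.elim x y (z i t))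

/-- `f` is expressible by binary submodular functions: `f x` is the minimum over `y` of
`value α g z x y + κ`. -/
def Expressible (f : (Fin k → Bool) → ℝ) : Prop :=
  ∃ (j m : ℕ) (α : Fin m → ℝ) (g : Fin m → (Fin 2 → Bool) → ℝ)
    (z : Fin m → Fin 2 → Fin k ⊕ Fin j) (κ : ℝ),
    (∀ i, 0 ≤ α i ∧ Submodular (g i)) ∧
    ∀ x, (∀ y, f x ≤ value α g z x y + κ) ∧ ∃ y, f x = value α g z x y + κ

/-- The elements of `A` are pairwise incomparable. -/
def Incomparable (A : Set (Fin k → Bool)) : Prop := ∀ a ∈ A, ∀ b ∈ A, a ≠ b → ¬ Below a b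

/-- `φ` is the upper fan of a pairwise incomparable set `A`, any two different elements of which
have the join `s`, the join of `A`. -/
def IsUpperFan (φ : (Fin k → Bool) → ℝ) : Prop :=
  ∃ (A : Set (Fin k → Bool)) (s : Fin k → Bool), Incomparable A ∧
    (∀ i, s i = true ↔ ∃ a ∈ A, a i = true) ∧ (∀ a ∈ A, ∀ b ∈ A, a ≠ b → join a b = s) ∧
    ∀ x, (Below s x ∧ φ x = -2) ∨ (¬ Below s x ∧ (∃ a ∈ A, Below a x) ∧ φ x = -1) ∨
      (¬ Below s x ∧ (∀ a ∈ A, ¬ Below a x) ∧ φ x = 0)

/-- `φ` is the lower fan of a pairwise incomparable set `A`, any two different elements of which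
have the meet `s`, the meet of `A`. -/
def IsLowerFan (φ : (Fin k → Bool) → ℝ) : Prop :=
  ∃ (A : Set (Fin k → Bool)) (s : Fin k → Bool), Incomparable A ∧
    (∀ i, s i = true ↔ ∀ a ∈ A, a i = true) ∧ (∀ a ∈ A, ∀ b ∈ A, a ≠ b → meet a b = s) ∧
    ∀ x, (Below x s ∧ φ x = -2) ∨ (¬ Below x s ∧ (∃ a ∈ A, Below x a) ∧ φ x = -1) ∨
      (¬ Below x s ∧ (∀ a ∈ A, ¬ Below x a) ∧ φ x = 0)

/-- `f` is a finite nonnegative combination of fans plus a real constant. -/
def InFanCone (f : (Fin k → Bool) → ℝ) : Prop :=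
  ∃ (m : ℕ) (c : Fin m → ℝ) (φ : Fin m → (Fin k → Bool) → ℝ) (κ : ℝ),
    (∀ i, 0 ≤ c i ∧ (IsUpperFan (φ i) ∨ IsLowerFan (φ i))) ∧ ∀ x, f x = ∑ i, c i * φ i x + κ

end Pool.Agent.H74.Fan
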