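import Pool.Agent.H74.Fan.Old
import Pool.Agent.H74.Fan.Defs

/-!
From the lattice form of the theorem to the elementary form.
-/

set_option autoImplicit false

namespace Pool.Agent.H74.Fan

variable {k : ℕ}

theorem meet_eq (u v : Fin k → Bool) : meet u v = u ⊓ v := rfl

theorem join_eq (u v : Fin k → Bool) : join u v = u ⊔ v := rfl

theorem below_iff (u v : Fin k → Bool) : Below u v ↔ u ≤ v := Iff.rfl

theorem sub_iff (f : (Fin k → Bool) → ℝ) : Submodular f ↔ Old.Submodular f := Iff.rfl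

theorem expr_of {f : (Fin k → Bool) → ℝ} (h : Old.ExpressibleByBinary f) : Expressible f := by
  obtain ⟨j, m, g, α, z, κ, h1, h2, h3⟩ := h
  refine ⟨j, m, α, g, z, κ, fun i => ⟨h2 i, (sub_iff _).2 (h1 i)⟩, fun x => ⟨fun y => ?_, ?_⟩⟩
  · rw [h3 x]
    have := ciInf_le (Set.finite_range fun y : Fin j → Bool =>
      ∑ i, α i * g i (fun t => Sum.elim x y (z i t))).bddBelow y
    unfold value
    linarith
  · obtain ⟨y, hy⟩ := exists_eq_ciInf_of_finite (f := fun y : Fin j → Bool =>
      ∑ i, α i * g i (fun t => Sum.elim x y (z i t)))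
    refine ⟨y, ?_⟩
    rw [h3 x, ← hy]
    rfl

theorem upper_of {φ : (Fin k → Bool) → ℝ} (h : IsUpperFan φ) : Old.IsFan φ := by
  classical
  obtain ⟨A, s, h1, h2, h3, h4⟩ := h
  have hs : A.toFinset.sup id = s := by
    funext i
    rw [Finset.sup_apply]
    rw [Bool.eq_iff_iff, h2 i]
    constructor
    · intro h
      by_contra hc
      push Not at hc
      have : A.toFinset.sup (fun a => id a i) ≤ false := by
        refine Finset.sup_le fun a ha => ?_
        rw [Set.mem_toFinset] at ha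
        have := hc a ha
        show a i ≤ false
        cases hai : a i
        · exact le_rfl
        · exact absurd hai this
      rw [h] at this
      exact absurd this (by decide)
    · rintro ⟨a, ha, hai⟩
      have : id a i ≤ A.toFinset.sup (fun a => id a i) :=
        Finset.le_sup (f := fun a : Fin k → Bool => id a i) (Set.mem_toFinset.2 ha)
      rw [id, hai] at this
      exact Bool.eq_true_of_true_le this
  refine Or.inl ⟨A.toFinset, ⟨fun a ha b hb hab => ?_, fun a ha b hb hab => ?_⟩, ?_⟩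
  · exact h1 a (Set.mem_toFinset.1 ha) b (Set.mem_toFinset.1 hb) hab
  · rw [hs]
    exact h3 a (Set.mem_toFinset.1 ha) b (Set.mem_toFinset.1 hb) hab
  · funext x
    unfold Old.upperFan
    rw [hs]
    rcases h4 x with ⟨c1, c⟩ | ⟨c1, ⟨a, ha, hax⟩, c⟩ | ⟨c1, c2, c⟩
    · rw [if_pos (show s ≤ x from c1), c]
    · rw [if_neg (show ¬ s ≤ x from c1), if_pos, c]
      exact ⟨a, Set.mem_toFinset.2 ha, hax⟩
    · rw [if_neg (show ¬ s ≤ x from c1), if_neg, c]
      rintro ⟨a, ha, hax⟩
      exact c2 a (Set.mem_toFinset.1 ha) hax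

theorem lower_of {φ : (Fin k → Bool) → ℝ} (h : IsLowerFan φ) : Old.IsFan φ := by
  classical
  obtain ⟨A, s, h1, h2, h3, h4⟩ := h
  have hs : A.toFinset.inf id = s := by
    funext i
    rw [Finset.inf_apply]
    rw [Bool.eq_iff_iff, h2 i]
    constructor
    · intro h a ha
      have : A.toFinset.inf (fun a => id a i) ≤ id a i :=
        Finset.inf_le (f := fun a : Fin k → Bool => id a i) (Set.mem_toFinset.2 ha)
      rw [h] at this
      exact Bool.eq_true_of_true_le this
    · intro h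
      refine Bool.eq_true_of_true_le (Finset.le_inf fun a ha => ?_)
      rw [Set.mem_toFinset] at ha
      show true ≤ a i
      rw [h a ha]
  refine Or.inr ⟨A.toFinset, ⟨fun a ha b hb hab => ?_, fun a ha b hb hab => ?_⟩, ?_⟩
  · exact h1 a (Set.mem_toFinset.1 ha) b (Set.mem_toFinset.1 hb) hab
  · rw [hs]
    exact h3 a (Set.mem_toFinset.1 ha) b (Set.mem_toFinset.1 hb) hab
  · funext x
    unfold Old.lowerFan
    rw [hs]
    rcases h4 x with ⟨c1, c⟩ | ⟨c1, ⟨a, ha, hax⟩, c⟩ | ⟨c1, c2, c⟩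
    · rw [if_pos (show x ≤ s from c1), c]
    · rw [if_neg (show ¬ x ≤ s from c1), if_pos, c]
      exact ⟨a, Set.mem_toFinset.2 ha, hax⟩
    · rw [if_neg (show ¬ x ≤ s from c1), if_neg, c]
      rintro ⟨a, ha, hax⟩
      exact c2 a (Set.mem_toFinset.1 ha) hax

theorem cone_of {f : (Fin k → Bool) → ℝ} (h : InFanCone f) : Old.InFanCone f := by
  obtain ⟨m, c, φ, κ, h1, h2⟩ := h
  refine ⟨m, c, φ, κ, fun i => (h1 i).1, fun i => ?_, h2⟩
  rcases (h1 i).2 with h | h
  · exact upper_of h
  · exact lower_of h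

theorem main (k : ℕ) (hk : 5 ≤ k) : ∃ f : (Fin k → Bool) → ℝ,
    Submodular f ∧ Expressible f ∧ ¬ InFanCone f := by
  obtain ⟨f, h1, h2, h3⟩ := Old.old_result k hk
  exact ⟨f, (sub_iff f).2 h1, expr_of h2, fun h => h3 (cone_of h)⟩

end Pool.Agent.H74.Fan
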