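import Mathlib

/-!
For every `k ≥ 5` there is a submodular function on `{0,1}^k`, expressible by binary submodular
functions with a single extra variable, which is not in the cone of fans.
-/

set_option autoImplicit false

namespace Pool.Agent.H74.Fan.Old

/-- `f` is submodular on `B_k = (Fin k → Bool)` with the coordinatewise order. -/
def Submodular {k : ℕ} (f : (Fin k → Bool) → ℝ) : Prop :=
  ∀ u v, f (u ⊓ v) + f (u ⊔ v) ≤ f u + f v

/-- `f` is expressible by binary submodular functions (with `j` extra variables `y`). -/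
def ExpressibleByBinary {n : ℕ} (f : (Fin n → Bool) → ℝ) : Prop :=
  ∃ (j m : ℕ) (g : Fin m → (Fin 2 → Bool) → ℝ) (α : Fin m → ℝ)
    (z : Fin m → Fin 2 → Fin n ⊕ Fin j) (κ : ℝ),
    (∀ i, Submodular (g i)) ∧ (∀ i, 0 ≤ α i) ∧
    ∀ x, f x = (⨅ y : Fin j → Bool, ∑ i, α i * g i (fun t => Sum.elim x y (z i t))) + κ

/-- `A` is pairwise incomparable and any two distinct elements of `A` have the same join `⋁ A`. -/
def IsUpperFamily {k : ℕ} (A : Finset (Fin k → Bool)) : Prop :=
  (∀ a ∈ A, ∀ b ∈ A, a ≠ b → ¬ a ≤ b) ∧ (∀ a ∈ A, ∀ b ∈ A, a ≠ b → a ⊔ b = A.sup id)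

/-- `A` is pairwise incomparable and any two distinct elements of `A` have the same meet `⋀ A`. -/
def IsLowerFamily {k : ℕ} (A : Finset (Fin k → Bool)) : Prop :=
  (∀ a ∈ A, ∀ b ∈ A, a ≠ b → ¬ a ≤ b) ∧ (∀ a ∈ A, ∀ b ∈ A, a ≠ b → a ⊓ b = A.inf id)

open Classical in
/-- upper fan of `A` -/
noncomputable def upperFan {k : ℕ} (A : Finset (Fin k → Bool)) (x : Fin k → Bool) : ℝ :=
  if A.sup id ≤ x then -2 else if ∃ a ∈ A, a ≤ x then -1 else 0

open Classical in
/-- lower fan of `A` -/
noncomputable def lowerFan {k : ℕ} (A : Finset (Fin k → Bool)) (x : Fin k → Bool) : ℝ :=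
  if x ≤ A.inf id then -2 else if ∃ a ∈ A, x ≤ a then -1 else 0

/-- `φ` is an upper or a lower fan. -/
def IsFan {k : ℕ} (φ : (Fin k → Bool) → ℝ) : Prop :=
  (∃ A : Finset (Fin k → Bool), IsUpperFamily A ∧ φ = upperFan A) ∨
  (∃ A : Finset (Fin k → Bool), IsLowerFamily A ∧ φ = lowerFan A)

/-- `f` is a finite nonnegative combination of fans plus a real constant. -/
def InFanCone {k : ℕ} (f : (Fin k → Bool) → ℝ) : Prop :=
  ∃ (m : ℕ) (c : Fin m → ℝ) (φ : Fin m → (Fin k → Bool) → ℝ) (κ : ℝ),
    (∀ i, 0 ≤ c i) ∧ (∀ i, IsFan (φ i)) ∧ ∀ x, f x = ∑ i, c i * φ i x + κ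

/-! ### The separating functional on `B_5` -/

/-- number of ones among the last four coordinates -/
def s4 (x : Fin 5 → Bool) : ℕ := (x 1).toNat + (x 2).toNat + (x 3).toNat + (x 4).toNat

/-- the coefficients of the functional -/
def cf (x : Fin 5 → Bool) : ℤ :=
  match x 0, s4 x with
  | false, 0 => -3
  | false, 1 => -1
  | false, 2 => 3
  | false, 3 => -3
  | false, _ => 1
  | true, 0 => 1
  | true, 1 => -3
  | true, 2 => 3
  | true, 3 => -1
  | true, _ => -3

/-- `U a = ∑_{x ≥ a} cf x` -/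
def U (x : Fin 5 → Bool) : ℤ :=
  match x 0, s4 x with
  | false, 0 => 0
  | false, 1 => 0
  | false, 2 => -4
  | false, 3 => -6
  | false, _ => -2
  | true, 0 => 0
  | true, 1 => 0
  | true, 2 => -2
  | true, 3 => -4
  | true, _ => -3

/-- prices -/
def pr (x : Fin 5 → Bool) (i : Fin 5) : ℤ :=
  match x 0, s4 x with
  | false, 0 => 0
  | false, 1 => 0
  | false, 2 => if i = 0 then 0 else -4
  | false, 3 => if i = 0 then 0 else -3
  | false, _ => if i = 0 then 0 else -1
  | true, 0 => 0
  | true, 1 => 0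
  | true, 2 => if i = 0 then 0 else -2
  | true, 3 => if i = 0 then 0 else -2
  | true, _ => -1

/-- the function on `B_5`, integer valued -/
def F5 (x : Fin 5 → Bool) : ℤ := - max 0 (2 * ((x 0).toNat : ℤ) + (s4 x : ℤ) - 3)

lemma pr_nonpos : ∀ (x : Fin 5 → Bool) (i : Fin 5), pr x i ≤ 0 := by decide +kernel

lemma U_nonpos : ∀ x : Fin 5 → Bool, U x ≤ 0 := by decide +kernel

lemma U_eq : ∀ a : Fin 5 → Bool, ∑ x : Fin 5 → Bool, (if ∀ i, a i ≤ x i then cf x else 0) = U a := by
  decide +kernel

lemma cf_compl : ∀ x : Fin 5 → Bool, cf xᶜ = cf x := by decide +kernel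

lemma cf_sum : ∑ x : Fin 5 → Bool, cf x = 0 := by decide +kernel

lemma cf_F5 : ∑ x : Fin 5 → Bool, cf x * F5 x = -2 := by decide +kernel

lemma F5_sub : ∀ u v : Fin 5 → Bool, F5 (u ⊓ v) + F5 (u ⊔ v) ≤ F5 u + F5 v := by decide +kernel

lemma pr_gap : ∀ J a : Fin 5 → Bool, (∀ i, a i ≤ J i) →
    ∑ i, (if J i = true ∧ a i = false then pr J i else 0) ≤ U J - U a := by decide +kernel

lemma pr_total : ∀ J : Fin 5 → Bool, 2 * U J ≤ ∑ i, (if J i = true then pr J i else 0) := by
  decide +kernel

/-- Key combinatorial inequality. -/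
lemma key {ι : Type*} (A : Finset ι) (a : ι → Fin 5 → Bool) (J : Fin 5 → Bool)
    (hle : ∀ t ∈ A, ∀ i, a t i ≤ J i)
    (hdisj : ∀ i, J i = true → ∀ t ∈ A, ∀ u ∈ A, a t i = false → a u i = false → t = u) :
    2 * U J ≤ ∑ t ∈ A, (U J - U (a t)) := by
  calc 2 * U J ≤ ∑ i, (if J i = true then pr J i else 0) := pr_total J
    _ ≤ ∑ i, ∑ t ∈ A, (if J i = true ∧ a t i = false then pr J i else 0) := by
        apply Finset.sum_le_sum
        intro i _
        by_cases hJ : J i = true
        · simp only [hJ, true_and, if_true]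
          rw [← Finset.sum_filter, Finset.sum_const, nsmul_eq_mul]
          have h1 : (A.filter (fun t => a t i = false)).card ≤ 1 := by
            rw [Finset.card_le_one]
            intro t ht u hu
            rw [Finset.mem_filter] at ht hu
            exact hdisj i hJ t ht.1 u hu.1 ht.2 hu.2
          have h2 := pr_nonpos J i
          have h3 : ((A.filter (fun t => a t i = false)).card : ℤ) ≤ 1 := by exact_mod_cast h1
          nlinarith
        · simp [hJ]
    _ = ∑ t ∈ A, ∑ i, (if J i = true ∧ a t i = false then pr J i else 0) := Finset.sum_comm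
    _ ≤ ∑ t ∈ A, (U J - U (a t)) := by
        apply Finset.sum_le_sum
        intro t ht
        exact pr_gap J (a t) (hle t ht)

section general

variable {k : ℕ} (hk : 5 ≤ k)

/-- restriction to the first five coordinates -/
def res (x : Fin k → Bool) : Fin 5 → Bool := fun i => x (Fin.castLE hk i)

/-- extension by zeros -/
def ext (x : Fin 5 → Bool) : Fin k → Bool := fun i => if h : (i : ℕ) < 5 then x ⟨i, h⟩ else false

lemma res_ext (x : Fin 5 → Bool) : res hk (ext x) = x := by
  funext i
  simp [res, ext]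

/-- the functional -/
noncomputable def L (f : (Fin k → Bool) → ℝ) : ℝ := ∑ x : Fin 5 → Bool, (cf x : ℝ) * f (ext x)

lemma le_ext_iff (a : Fin k → Bool) (x : Fin 5 → Bool) :
    a ≤ ext x ↔ (∀ i, res hk a i ≤ x i) ∧ (∀ i : Fin k, 5 ≤ (i : ℕ) → a i = false) := by
  constructor
  · intro h
    constructor
    · intro i
      have := h (Fin.castLE hk i)
      simpa [res, ext] using this
    · intro i hi
      have := h i
      simp only [ext] at this
      rw [dif_neg (by omega)] at this
      exact Bool.eq_false_of_le_false this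
  · rintro ⟨h1, h2⟩ i
    by_cases hi : (i : ℕ) < 5
    · have := h1 ⟨i, hi⟩
      simpa [res, ext, hi] using this
    · rw [h2 i (by omega)]
      exact Bool.false_le _

lemma ext_le_iff (a : Fin k → Bool) (x : Fin 5 → Bool) :
    ext x ≤ a ↔ ∀ i, (res hk a)ᶜ i ≤ xᶜ i := by
  constructor
  · intro h i
    have := h (Fin.castLE hk i)
    simp only [ext, Fin.val_castLE, Fin.is_lt, dif_pos] at this
    simp only [Pi.compl_apply, res]
    exact compl_le_compl this
  · intro h i
    by_cases hi : (i : ℕ) < 5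
    · have := h ⟨i, hi⟩
      simp only [Pi.compl_apply, res] at this
      have := compl_le_compl this
      simpa [ext, hi] using this
    · simp [ext, hi]

open Classical in
lemma L_up (a : Fin k → Bool) :
    L (fun x => if a ≤ x then (1:ℝ) else 0) =
      if (∀ i : Fin k, 5 ≤ (i : ℕ) → a i = false) then (U (res hk a) : ℝ) else 0 := by
  unfold L
  split_ifs with h
  · rw [← U_eq, Int.cast_sum]
    apply Finset.sum_congr rfl
    intro x _
    beta_reduce
    by_cases hx : ∀ i, res hk a i ≤ x i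
    · rw [if_pos ((le_ext_iff hk a x).2 ⟨hx, h⟩), if_pos hx, mul_one]
    · rw [if_neg (fun h' => hx ((le_ext_iff hk a x).1 h').1), if_neg hx]; simp
  · apply Finset.sum_eq_zero
    intro x _
    beta_reduce
    rw [if_neg (fun h' => h ((le_ext_iff hk a x).1 h').2)]; simp

open Classical in
lemma L_down (a : Fin k → Bool) :
    L (fun x => if x ≤ a then (1:ℝ) else 0) = (U (res hk a)ᶜ : ℝ) := by
  unfold L
  rw [← U_eq, Int.cast_sum]
  rw [← (Equiv.ofBijective (fun x : Fin 5 → Bool => xᶜ) (compl_bijective)).sum_comp]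
  apply Finset.sum_congr rfl
  intro x _
  simp only [Equiv.ofBijective_apply]
  rw [cf_compl]
  by_cases hx : ∀ i, (res hk a)ᶜ i ≤ xᶜᶜ i
  · rw [if_pos ((ext_le_iff hk a xᶜ).2 hx), mul_one, if_pos (by simpa using hx)]
  · rw [if_neg (fun h' => hx ((ext_le_iff hk a xᶜ).1 h')), if_neg (by simpa using hx)]; simp

lemma L_add (f g : (Fin k → Bool) → ℝ) : L (fun x => f x + g x) = L f + L g := by
  unfold L; rw [← Finset.sum_add_distrib]; apply Finset.sum_congr rfl; intros; ring

lemma L_smul (c : ℝ) (f : (Fin k → Bool) → ℝ) : L (fun x => c * f x) = c * L f := by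
  unfold L; rw [Finset.mul_sum]; apply Finset.sum_congr rfl; intros; ring

lemma L_sum {ι : Type*} (A : Finset ι) (f : ι → (Fin k → Bool) → ℝ) :
    L (fun x => ∑ t ∈ A, f t x) = ∑ t ∈ A, L (f t) := by
  unfold L
  rw [Finset.sum_comm]
  apply Finset.sum_congr rfl
  intro x _
  rw [Finset.mul_sum]

lemma L_const (κ : ℝ) : L (fun _ : Fin k → Bool => κ) = 0 := by
  unfold L
  rw [← Finset.sum_mul, ← Int.cast_sum, cf_sum]; simp

open Classical in
lemma upperFan_eq (A : Finset (Fin k → Bool)) (hA : IsUpperFamily A) (x : Fin k → Bool) :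
    upperFan A x = (∑ a ∈ A, (-1) * (if a ≤ x then (1:ℝ) else 0))
      + ((A.card : ℝ) - 2) * (if A.sup id ≤ x then (1:ℝ) else 0) := by
  unfold upperFan
  by_cases hJ : A.sup id ≤ x
  · rw [if_pos hJ, if_pos hJ]
    have : ∀ a ∈ A, (-1) * (if a ≤ x then (1:ℝ) else 0) = -1 := by
      intro a ha
      have h1 : a ≤ x := (Finset.le_sup (f := id) ha).trans hJ
      rw [if_pos h1]; ring
    rw [Finset.sum_congr rfl this]
    simp only [Finset.sum_const, nsmul_eq_mul]
    ring
  · rw [if_neg hJ, if_neg hJ, mul_zero, add_zero]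
    by_cases hex : ∃ a ∈ A, a ≤ x
    · rw [if_pos hex]
      obtain ⟨a, ha, hax⟩ := hex
      rw [Finset.sum_eq_single_of_mem a ha]
      · rw [if_pos hax]; ring
      · intro b hb hba
        rw [if_neg, mul_zero]
        intro hbx
        apply hJ
        rw [← hA.2 b hb a ha hba]
        exact sup_le hbx hax
    · rw [if_neg hex, Finset.sum_eq_zero]
      intro a ha
      rw [if_neg (fun h => hex ⟨a, ha, h⟩), mul_zero]

open Classical in
lemma lowerFan_eq (A : Finset (Fin k → Bool)) (hA : IsLowerFamily A) (x : Fin k → Bool) :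
    lowerFan A x = (∑ a ∈ A, (-1) * (if x ≤ a then (1:ℝ) else 0))
      + ((A.card : ℝ) - 2) * (if x ≤ A.inf id then (1:ℝ) else 0) := by
  unfold lowerFan
  by_cases hJ : x ≤ A.inf id
  · rw [if_pos hJ, if_pos hJ]
    have : ∀ a ∈ A, (-1) * (if x ≤ a then (1:ℝ) else 0) = -1 := by
      intro a ha
      have h1 : x ≤ a := hJ.trans (Finset.inf_le (f := id) ha)
      rw [if_pos h1]; ring
    rw [Finset.sum_congr rfl this]
    simp only [Finset.sum_const, nsmul_eq_mul]
    ring
  · rw [if_neg hJ, if_neg hJ, mul_zero, add_zero]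
    by_cases hex : ∃ a ∈ A, x ≤ a
    · rw [if_pos hex]
      obtain ⟨a, ha, hax⟩ := hex
      rw [Finset.sum_eq_single_of_mem a ha]
      · rw [if_pos hax]; ring
      · intro b hb hba
        rw [if_neg, mul_zero]
        intro hbx
        apply hJ
        rw [← hA.2 b hb a ha hba]
        exact le_inf hbx hax
    · rw [if_neg hex, Finset.sum_eq_zero]
      intro a ha
      rw [if_neg (fun h => hex ⟨a, ha, h⟩), mul_zero]

include hk in
lemma L_upperFan (A : Finset (Fin k → Bool)) (hA : IsUpperFamily A) : 0 ≤ L (upperFan A) := by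
  classical
  have h1 : upperFan A = fun x => (∑ a ∈ A, (-1) * (if a ≤ x then (1:ℝ) else 0))
      + ((A.card : ℝ) - 2) * (if A.sup id ≤ x then (1:ℝ) else 0) := by
    funext x; exact upperFan_eq A hA x
  rw [h1, L_add, L_sum, L_smul, L_up hk]
  simp only [L_smul, L_up hk]
  by_cases hJ : ∀ i : Fin k, 5 ≤ (i : ℕ) → (A.sup id) i = false
  · rw [if_pos hJ]
    have h2 : ∀ a ∈ A, ∀ i : Fin k, 5 ≤ (i : ℕ) → a i = false := by
      intro a ha i hi
      have h3 : a i ≤ (A.sup id) i := Finset.le_sup (f := id) ha i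
      rw [hJ i hi] at h3
      exact Bool.eq_false_of_le_false h3
    have h4 : ∑ a ∈ A, (-1) * (if (∀ i : Fin k, 5 ≤ (i : ℕ) → a i = false) then (U (res hk a) : ℝ) else 0)
        = ∑ a ∈ A, (-1) * (U (res hk a) : ℝ) := by
      apply Finset.sum_congr rfl
      intro a ha
      rw [if_pos (h2 a ha)]
    rw [h4]
    have h5 := key A (fun a => res hk a) (res hk (A.sup id))
      (by
        intro a ha i
        exact Finset.le_sup (f := id) ha _)
      (by
        intro i hi a ha b hb hai hbi
        by_contra hab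
        have h6 := hA.2 a ha b hb hab
        have h7 : (a ⊔ b) (Fin.castLE hk i) = (A.sup id) (Fin.castLE hk i) := by rw [h6]
        simp only [res] at hi hai hbi
        rw [Pi.sup_apply, hai, hbi, hi] at h7
        simp at h7)
    rw [Finset.sum_sub_distrib, Finset.sum_const, nsmul_eq_mul] at h5
    have h6 : (2 * U (res hk (A.sup id)) : ℝ) ≤ (A.card : ℝ) * U (res hk (A.sup id)) - ∑ a ∈ A, (U (res hk a) : ℝ) := by
      exact_mod_cast h5
    rw [← Finset.mul_sum]
    linarith
  · rw [if_neg hJ, mul_zero, add_zero]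
    apply Finset.sum_nonneg
    intro a _
    split_ifs
    · have := U_nonpos (res hk a)
      have h : (U (res hk a) : ℝ) ≤ 0 := by exact_mod_cast this
      linarith
    · simp

include hk in
lemma L_lowerFan (A : Finset (Fin k → Bool)) (hA : IsLowerFamily A) : 0 ≤ L (lowerFan A) := by
  classical
  have h1 : lowerFan A = fun x => (∑ a ∈ A, (-1) * (if x ≤ a then (1:ℝ) else 0))
      + ((A.card : ℝ) - 2) * (if x ≤ A.inf id then (1:ℝ) else 0) := by
    funext x; exact lowerFan_eq A hA x
  rw [h1, L_add, L_sum, L_smul, L_down hk]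
  simp only [L_smul, L_down hk]
  have h5 := key A (fun a => (res hk a)ᶜ) ((res hk (A.inf id))ᶜ)
    (by
      intro a ha i
      exact compl_le_compl (Finset.inf_le (f := id) ha (Fin.castLE hk i)))
    (by
      intro i hi a ha b hb hai hbi
      by_contra hab
      have h6 := hA.2 a ha b hb hab
      have h7 : (a ⊓ b) (Fin.castLE hk i) = (A.inf id) (Fin.castLE hk i) := by rw [h6]
      simp only [res, Pi.compl_apply] at hi hai hbi
      rw [Pi.inf_apply] at h7
      revert hi hai hbi h7
      generalize a (Fin.castLE hk i) = p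
      generalize b (Fin.castLE hk i) = q
      generalize (A.inf id) (Fin.castLE hk i) = r
      revert p q r
      decide)
  rw [Finset.sum_sub_distrib, Finset.sum_const, nsmul_eq_mul] at h5
  have h6 : (2 * U ((res hk (A.inf id))ᶜ) : ℝ) ≤ (A.card : ℝ) * U ((res hk (A.inf id))ᶜ) - ∑ a ∈ A, (U ((res hk a)ᶜ) : ℝ) := by
    exact_mod_cast h5
  rw [← Finset.mul_sum]
  linarith

include hk in
lemma L_fan (φ : (Fin k → Bool) → ℝ) (h : IsFan φ) : 0 ≤ L φ := by
  rcases h with ⟨A, hA, rfl⟩ | ⟨A, hA, rfl⟩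
  · exact L_upperFan hk A hA
  · exact L_lowerFan hk A hA

include hk in
lemma L_cone (f : (Fin k → Bool) → ℝ) (h : InFanCone f) : 0 ≤ L f := by
  obtain ⟨m, c, φ, κ, hc, hφ, hf⟩ := h
  have h1 : f = fun x => (∑ i, c i * φ i x) + κ := by funext x; exact hf x
  rw [h1, L_add, L_const, L_sum, add_zero]
  apply Finset.sum_nonneg
  intro i _
  rw [L_smul]
  exact mul_nonneg (hc i) (L_fan hk _ (hφ i))

/-- the counterexample: `f x = - max 0 (2 x₀ + x₁ + x₂ + x₃ + x₄ - 3)` -/
def F (x : Fin k → Bool) : ℝ := ((F5 (res hk x) : ℤ) : ℝ)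

lemma L_F : L (F hk) = -2 := by
  unfold L F
  simp only [res_ext]
  rw [← Int.cast_two, ← Int.cast_neg, ← cf_F5]
  push_cast
  rfl

lemma F_submodular : Submodular (F hk) := by
  intro u v
  have := F5_sub (res hk u) (res hk v)
  unfold F
  have h1 : res hk (u ⊓ v) = res hk u ⊓ res hk v := rfl
  have h2 : res hk (u ⊔ v) = res hk u ⊔ res hk v := rfl
  rw [h1, h2]
  exact_mod_cast this

/-- the two binary functions used: `w ↦ w₀` and `w ↦ - w₀ w₁` -/
def g1 (w : Fin 2 → Bool) : ℝ := ((w 0).toNat : ℝ)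

/-- see `g1` -/
def g2 (w : Fin 2 → Bool) : ℝ := -(((w 0).toNat : ℝ) * ((w 1).toNat : ℝ))

lemma g1_sub : Submodular g1 := by
  intro u v
  simp only [g1, Pi.inf_apply, Pi.sup_apply]
  generalize u 0 = p
  generalize v 0 = q
  cases p <;> cases q <;> simp

lemma g2_sub : Submodular g2 := by
  intro u v
  simp only [g2, Pi.inf_apply, Pi.sup_apply]
  generalize u 0 = p
  generalize v 0 = q
  generalize u 1 = r
  generalize v 1 = t
  cases p <;> cases q <;> cases r <;> cases t <;> simp

lemma F_expressible : ExpressibleByBinary (F hk) := by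
  refine ⟨1, 6, fun i => if i = 5 then g1 else g2,
    fun i => if i = 5 then 3 else if i = 0 then 2 else 1,
    fun i t => if i = 5 then Sum.inr 0 else if t = 0 then
      Sum.inl ⟨i.1 % 5, lt_of_lt_of_le (Nat.mod_lt _ (by norm_num)) hk⟩ else Sum.inr 0,
    0, ?_, ?_, ?_⟩
  · intro i
    beta_reduce
    split_ifs
    · exact g1_sub
    · exact g2_sub
  · intro i
    beta_reduce
    split_ifs <;> norm_num
  · intro x
    rw [add_zero]
    have hsum : ∀ y : Fin 1 → Bool,
        (∑ i : Fin 6, (if i = 5 then (3:ℝ) else if i = 0 then 2 else 1) *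
          (if i = 5 then g1 else g2) (fun t => Sum.elim x y (if i = 5 then Sum.inr 0 else if t = 0 then
          Sum.inl ⟨i.1 % 5, lt_of_lt_of_le (Nat.mod_lt _ (by norm_num)) hk⟩ else Sum.inr 0)))
        = ((y 0).toNat : ℝ) * (3 - 2 * ((res hk x 0).toNat : ℝ) - (s4 (res hk x) : ℝ)) := by
      intro y
      rw [Fin.sum_univ_six]
      have e0 : Fin.castLE hk 0 = ⟨0, by omega⟩ := rfl
      have e1 : Fin.castLE hk 1 = ⟨1, by omega⟩ := rfl
      have e2 : Fin.castLE hk 2 = ⟨2, by omega⟩ := rfl
      have e3 : Fin.castLE hk 3 = ⟨3, by omega⟩ := rfl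
      have e4 : Fin.castLE hk 4 = ⟨4, by omega⟩ := rfl
      simp only [s4, res, e0, e1, e2, e3, e4]
      simp [g1, g2, Fin.ext_iff]
      ring
    have hF : F hk x = - max 0 (2 * ((res hk x 0).toNat : ℝ) + (s4 (res hk x) : ℝ) - 3) := by
      unfold F F5
      push_cast
      rfl
    rw [hF]
    beta_reduce
    simp only [hsum]
    set T : ℝ := 3 - 2 * ((res hk x 0).toNat : ℝ) - (s4 (res hk x) : ℝ) with hT
    have hT' : 2 * ((res hk x 0).toNat : ℝ) + (s4 (res hk x) : ℝ) - 3 = -T := by rw [hT]; ring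
    rw [hT']
    apply le_antisymm
    · apply le_ciInf
      intro y
      cases y 0
      · simp
      · simp only [Bool.toNat_true, Nat.cast_one, one_mul]
        have := le_max_right 0 (-T)
        linarith
    · have hb : BddBelow (Set.range fun y : Fin 1 → Bool => ((y 0).toNat : ℝ) * T) :=
        (Set.finite_range _).bddBelow
      rcases le_total 0 (-T) with h | h
      · rw [max_eq_right h]
        refine (ciInf_le hb (fun _ => true)).trans ?_
        simp
      · rw [max_eq_left h]
        refine (ciInf_le hb (fun _ => false)).trans ?_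
        simp

end general

/-- For every `k ≥ 5` there is a submodular function on `{0,1}^k`, expressible by binary
submodular functions, that is not in the cone of fans. -/
theorem old_result : ∀ k : ℕ, 5 ≤ k → ∃ f : (Fin k → Bool) → ℝ,
    Submodular f ∧ ExpressibleByBinary f ∧ ¬ InFanCone f := by
  intro k hk
  refine ⟨F hk, F_submodular hk, F_expressible hk, ?_⟩
  intro h
  have h1 := L_cone hk _ h
  rw [L_F] at h1
  norm_num at h1

end Pool.Agent.H74.Fan.Old
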